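import Pool.Agent.H74.F5.Visd
import Pool.Agent.H87.F5.Asm

set_option autoImplicit false

/-! MP_2e6055, module F5 (helper74): VISD in the form of helper87. -/

namespace Pool.Agent.H74.F5

open Pool.Agent.H7.UC Pool.Agent.H74.Tri Pool.Agent.H75.Perc Pool.Agent.H75.Lv Pool.Agent.H53.Per

/-- a face of a box next to a face off the box is on the boundary layer -/
theorem bd_layer {z0 f g : Fc} {e : ℤ} (hf : f ∈ Bx z0 e) (hg : g ∉ Bx z0 e) (h : adjF f g) :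
    |f.1 - z0.1| = e ∨ |f.2 - z0.2| = e := by
  rw [Pool.Agent.H75.Lv.mem_Bx] at hf hg
  rw [adjF_iff] at h
  simp only [abs_le] at hf hg
  rcases abs_cases (f.1 - z0.1) with ⟨h1, _⟩ | ⟨h1, _⟩ <;>
    rcases abs_cases (f.2 - z0.2) with ⟨h2, _⟩ | ⟨h2, _⟩ <;> rw [h1, h2] <;> omega

theorem visd' (h4 : VIS4) : Pool.Agent.H87.F5.VISD := by
  obtain ⟨s3, hs3, e0, h⟩ := visd h4
  refine ⟨s3, hs3, e0, ?_⟩
  intro D ω q z0 e he hSt hT hph hbox hTB v hv
  exact h D ω q z0 e he hSt hT hbox hph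
    (bd_layer hph (fun hb => hT.2.1 (hbox hb)) (adj_hl q)) hTB v hv

end Pool.Agent.H74.F5
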