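import Pool.Agent.H74.F5.Visd2
import Pool.Agent.H11.Lv.RST
import Pool.Agent.H74.Tri.LDI

set_option autoImplicit false

/-! MP_2e6055, module F5 (helper74): the pocket (pock8) and DET7B. -/

namespace Pool.Agent.H74.F5

open Pool.Agent.H7.UC Pool.Agent.H74.Tri Pool.Agent.H75.Perc Pool.Agent.H75.Lv Pool.Agent.H53.Per
open Pool.Agent.H89.Per (annS)

/-- faces of the annulus are in the outer square and off the inner one -/
theorem annS_out {c a : Fc} {w : ℕ} (ha : a ∈ annS c w) : |a.1 - c.1| ≤ 3 * (w : ℤ) ∧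
    |a.2 - c.2| ≤ 3 * (w : ℤ) := by
  unfold annS at ha
  rw [Set.mem_ofPred_eq] at ha
  rw [abs_le, abs_le]
  refine ⟨⟨by linarith [ha.1.1.1], by linarith [ha.1.1.2]⟩, by linarith [ha.1.2.1],
    by linarith [ha.1.2.2]⟩

theorem annS_in {c a : Fc} {w : ℕ} (ha : a ∈ annS c w) : (w : ℤ) ≤ |a.1 - c.1| ∨
    (w : ℤ) ≤ |a.2 - c.2| := by
  unfold annS at ha
  rw [Set.mem_ofPred_eq] at ha
  rcases ha.2 with (h | h) | (h | h)
  · left; linarith [neg_abs_le (a.1 - c.1)]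
  · left; linarith [le_abs_self (a.1 - c.1)]
  · right; linarith [neg_abs_le (a.2 - c.2)]
  · right; linarith [le_abs_self (a.2 - c.2)]

/-- the pocket from a run `m` next to a black face -/
theorem pock8 {D : Finset Fc} {Ω : Fc → Bool} (hD : St D Ω) {q : Pos} (hq : IsTip D Ω q) {z0 c : Fc}
    {w : ℕ} {R : ℤ} {m : Set Fc} (hmD : ∀ f ∈ m, f ∈ D) (hm : ∀ f ∈ m, ∀ g ∈ m, Jn m f g)
    (hin : ∀ f ∈ m, |f.1 - c.1| < (w : ℤ) ∧ |f.2 - c.2| < (w : ℤ)) {g x : Fc} (hg : g ∈ m)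
    (hx : x ∉ D) (hgx : adjF g x) (hxb : Ω x = true)
    (hout : 3 * (w : ℤ) < |(ph q).1 - c.1| ∨ 3 * (w : ℤ) < |(ph q).2 - c.2|)
    (hz : z0 ∈ D) (hza : z0 ∉ annS c w) (hzm : z0 ∉ m)
    (hj : Jn {a | a ∈ D ∧ a ∉ annS c w ∧ a ∉ m} z0 (ph q))
    (hR : ∀ f, Jn {a | a ∈ D ∧ a ∉ m} z0 f → f ∈ Bx z0 R) : Pock D Ω z0 c w R := by
  classical
  intro C hC hb f hf
  set Ω' : Fc → Bool := fun f => if f ∈ D then decide (f ∈ C) else Ω f with hΩ'
  have hoff : ∀ f, f ∉ D → Ω f = Ω' f := by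
    intro f hf
    rw [hΩ']
    simp only
    rw [if_neg hf]
  have hD' : St D Ω' := St_congr hoff hD
  have hq' : IsTip D Ω' q := by
    refine ⟨hq.1, hq.2.1, hq.2.2.1, ?_, ?_⟩
    · rw [← hoff _ hq.2.1]; exact hq.2.2.2.1
    · rw [← hoff _ hq.2.2.1]; exact hq.2.2.2.2
  have hK : KC D Ω C = KC D Ω' C := KC_congr (fun f hf _ => hoff f hf) (fun _ _ => Iff.rfl)
  rw [hK] at hf
  have hqc : ph q ∉ C := by
    intro h
    have h1 := annS_out (hC h)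
    rcases hout with h2 | h2
    · linarith [h1.1]
    · linarith [h1.2]
  have hmc : ∀ f ∈ m, f ∉ C := by
    intro f hf h
    have h1 := hin f hf
    rcases annS_in (hC h) with h2 | h2
    · linarith [h1.1]
    · linarith [h1.2]
  have hsep : ¬ Jn {a | a ∉ C} (ph q) g := fun h => hb g (ph q) (hin g hg) hout (h.symm hqc)
  have hsub := gate_sub hD' hq' (c := C) (fun a ha hac => by
    rw [hΩ']
    simp only
    rw [if_pos ha]
    simpa using hac) hmD hm hmc hg hx hgx (by rw [← hoff x hx]; exact hxb) hqc hsep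
  -- the component of `z0` is the component of `ph q`
  have hzDK : z0 ∈ D \ KC D Ω' C :=
    Finset.mem_sdiff.2 ⟨hz, fun h => hza (hC (mem_KC.1 h).2.1)⟩
  have hqZ : ph q ∈ comp (D \ KC D Ω' C) z0 := by
    refine mem_comp.2 ⟨Finset.mem_sdiff.2 ⟨hq.1, fun h => hqc (mem_KC.1 h).2.1⟩, hj.mono ?_⟩
    rintro a ⟨h1, h2, _⟩
    rw [Finset.mem_coe, Finset.mem_sdiff]
    exact ⟨h1, fun h => h2 (hC (mem_KC.1 h).2.1)⟩
  rw [← comp_eq_of_mem hzDK hqZ] at hf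
  have h1 := hsub f hf
  refine hR f (Jn.trans (hj.mono ?_) h1)
  rintro a ⟨h1, _, h3⟩
  exact ⟨h1, h3⟩

/-- a run of the row is connected -/
theorem Rn_conn (C : Ch) {k i1 i2 : ℤ} {f g : Fc} (hf : f ∈ Pool.Agent.H87.F5.Rn C k i1 i2)
    (hg : g ∈ Pool.Agent.H87.F5.Rn C k i1 i2) : Jn (Pool.Agent.H87.F5.Rn C k i1 i2) f g := by
  obtain ⟨f1, f2, f3⟩ := hf
  obtain ⟨g1, g2, g3⟩ := hg
  have e : Jn (Pool.Agent.H87.F5.Rn C k i1 i2) (C.pt (C.X f) (-k)) (C.pt (C.X g) (-k)) := by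
    apply C.jn_row
    intro l hl hl'
    exact ⟨C.Y_pt _ _, by rw [C.X_pt]; omega, by rw [C.X_pt]; omega⟩
  rw [← f1, C.pt_XY, f1, ← g1, C.pt_XY] at e
  exact e

/-- **DET7B** -/
theorem det7B : Pool.Agent.H87.F5.DET7B := by
  classical
  intro C U ω p v z0 R t b k e y u hS hu hb i i1 i2 hA
  have hst := hS.ent.st
  have htip := hS.ent.tip
  have hn := hS.num
  have n1 := hn.t2
  have n2 := hn.tk
  have n3 := hn.ke
  have n4 := hn.eb
  have n5 := hn.bR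
  have hX0 : C.X z0 = 0 := by rw [← hS.c]; exact C.X_c
  have hY0 : C.Y z0 = 0 := by rw [← hS.c]; exact C.Y_c
  have hvz : v ∈ Bx z0 e := by
    rw [C.mem_Bx, hX0, hY0, sub_zero, sub_zero]
    exact ⟨hn.hv1, hn.hv2⟩
  have hEv : Bx z0 e ⊆ Bx v R := by
    intro f hf
    have h1 := hn.hv1
    have h2 := hn.hv2
    rw [C.mem_Bx] at hf ⊢
    rw [hX0, hY0, sub_zero, sub_zero] at hf
    simp only [abs_le] at hf h1 h2 ⊢
    omega
  have hEU : Bx z0 e ⊆ U := fun f hf => hS.ent.box (hEv hf)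
  have hz0E : z0 ∈ Bx z0 e := by
    rw [Pool.Agent.H75.Lv.mem_Bx, sub_self, sub_self, abs_zero]
    exact ⟨by omega, by omega⟩
  have hz0R := hA.box z0 hz0E
  -- the unexplored component
  obtain ⟨D, hD⟩ : ∃ D, D = unx U ω p i z0 := ⟨_, rfl⟩
  have hStD : St D ω := hD ▸ Pool.Agent.H11.Lv.sti' U ω p hst htip i z0 (hEU hz0E) hz0R
  have hED : Bx z0 e ⊆ D := by
    intro f hf
    rw [hD]
    unfold unx
    have hs : ∀ a ∈ Bx z0 e, a ∈ U \ expl U ω p i := fun a ha =>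
      Finset.mem_sdiff.2 ⟨hEU ha, fun h => hA.box a ha (Pool.Agent.H75.Lv.mem_expl.1 h).2⟩
    refine mem_comp.2 ⟨hs f hf, (jn_row hz0E hf).mono ?_⟩
    intro a ha
    exact_mod_cast hs a (by exact_mod_cast ha)
  obtain ⟨⟨x0, hx0, hask⟩, _⟩ := hA.first
  have hphE : ph (orb ω p i) ∈ Bx z0 e := by rw [hask.2.1]; exact hx0
  have hTD : IsTip D ω (orb ω p i) := by
    have hR := fun (f : Fc) (h : f ∈ D) => (Finset.mem_sdiff.1 (comp_sub _ _ (hD ▸ h :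
      f ∈ unx U ω p i z0))).2
    refine ⟨hED hphE, fun h => hR _ h ?_, fun h => hR _ h ?_, (htip.2.2.2).orb i⟩
    · exact Pool.Agent.H75.Lv.mem_expl.2 ⟨(Finset.mem_sdiff.1 (comp_sub _ _ (hD ▸ h :
        _ ∈ unx U ω p i z0))).1, ⟨i, le_rfl, Or.inl rfl⟩⟩
    · exact Pool.Agent.H75.Lv.mem_expl.2 ⟨(Finset.mem_sdiff.1 (comp_sub _ _ (hD ▸ h :
        _ ∈ unx U ω p i z0))).1, ⟨i, le_rfl, Or.inr rfl⟩⟩
  -- the run
  obtain ⟨M, hM⟩ : ∃ M, M = Pool.Agent.H87.F5.Rn C k i1 i2 := ⟨_, rfl⟩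
  have hMX : ∀ f ∈ M, C.Y f = -k ∧ i1 ≤ C.X f ∧ C.X f ≤ i2 := fun f hf => by rw [hM] at hf; exact hf
  have hi1 := hA.i1l
  have hi2 := hA.i2l
  have hMD : ∀ f ∈ M, f ∈ D := fun f hf => hD ▸ hA.run f (hM ▸ hf)
  have hMc : ∀ f ∈ M, ∀ g ∈ M, Jn M f g := fun f hf g hg => by
    rw [hM] at hf hg ⊢
    exact Rn_conn C hf hg
  have hEX : ∀ f ∈ Bx z0 e, C.X f ≤ e := by
    intro f hf
    rw [C.mem_Bx, hX0, sub_zero] at hf
    exact (le_abs_self _).trans hf.1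
  have hEM : ∀ f ∈ Bx z0 e, f ∉ M := by
    intro f hf h
    have h1 := hEX f hf
    have h2 := hMX f h
    omega
  -- far from the annulus
  have hfar : ∀ f, C.X f ≤ e → ¬ (|f.1 - (C.pt b (-k)).1| ≤ 3 * (u : ℤ) ∧
      |f.2 - (C.pt b (-k)).2| ≤ 3 * (u : ℤ)) := by
    intro f hf h
    have h1 : f ∈ Bx (C.pt b (-k)) (3 * (u : ℤ)) := Pool.Agent.H75.Lv.mem_Bx.2 h
    rw [C.mem_Bx, C.X_pt] at h1
    have h2 := h1.1
    rw [abs_le] at h2
    omega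
  -- contact of the run with both colours
  have hcon : ∀ cc : Bool, ∃ f ∈ M, ∃ x, x ∉ D ∧ adjF f x ∧ ω x = cc := by
    intro cc
    obtain ⟨g, hgD, ⟨x, hxU, hgx, hxc⟩, hng⟩ := hA.col cc
    rw [← hD] at hgD hng
    rw [← hM] at hng
    have hDU : ∀ f ∈ D, f ∈ U := fun f hf => (Finset.mem_sdiff.1 (comp_sub _ _ (hD ▸ hf :
      f ∈ unx U ω p i z0))).1
    have hq : ∃ x, x ∉ D ∧ adjF (ph (orb ω p i)) x ∧ ω x = cc := by
      cases cc
      · exact ⟨_, hTD.2.2.1, adj_hr _, hTD.2.2.2.2⟩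
      · exact ⟨_, hTD.2.1, adj_hl _, hTD.2.2.2.1⟩
    have harc := Pool.Agent.H11.Tri.arcC D ω hStD _ hTD cc (ph (orb ω p i)) g (hED hphE) hgD hq
      ⟨x, fun h => hxU (hDU x h), hgx, hxc⟩
    have hPq : Jn {a | a ∈ D ∧ a ∉ M} z0 (ph (orb ω p i)) := by
      refine (jn_row hz0E hphE).mono ?_
      intro a ha
      have ha' : a ∈ Bx z0 e := by exact_mod_cast ha
      exact ⟨hED ha', hEM a ha'⟩
    obtain ⟨a, a', _, h2, h3, h4, h5, _⟩ := Jn.exit (A := {f | Jn {a | a ∈ D ∧ a ∉ M} z0 f}) harc hPq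
      hng
    have h4' : ¬ Jn {a | a ∈ D ∧ a ∉ M} z0 a' := h4
    have h3' : a' ∈ D ∧ ∃ x, x ∉ D ∧ adjF a' x ∧ ω x = cc := h3
    by_cases hM' : a' ∈ M
    · exact ⟨a', hM', h3'.2⟩
    · exact absurd (Jn.step h2 ⟨h3'.1, hM'⟩ h5) h4'
  rw [← hD]
  refine ⟨hStD, hTD, hED, ?_, ?_⟩
  · obtain ⟨g, hg, x, hx, hgx, hxc⟩ := hcon true
    refine pock8 hStD hTD hMD hMc ?_ hg hx hgx hxc ?_ (hED hz0E) ?_ (hEM z0 hz0E) ?_ ?_
    · intro f hf
      have h1 := hMX f hf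
      have h2 : f ∈ Bx (C.pt b (-k)) ((u : ℤ) - 1) := by
        rw [C.mem_Bx, C.X_pt, C.Y_pt]
        simp only [abs_le]
        omega
      rw [Pool.Agent.H75.Lv.mem_Bx] at h2
      exact ⟨by linarith [h2.1], by linarith [h2.2]⟩
    · have h1 := hfar _ (hEX _ hphE)
      by_contra h2
      push Not at h2
      exact h1 h2
    · intro h
      exact hfar z0 (hEX z0 hz0E) (annS_out h)
    · refine (jn_row hz0E hphE).mono ?_
      intro a ha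
      have ha' : a ∈ Bx z0 e := by exact_mod_cast ha
      exact ⟨hED ha', fun h => hfar a (hEX a ha') (annS_out h), hEM a ha'⟩
    · intro f hf
      rw [hD, hM] at hf
      have h1 := hA.big f hf
      rw [Pool.Agent.H75.Lv.mem_Bx] at h1 hvz ⊢
      simp only [abs_le] at h1 hvz ⊢
      omega
  · intro cc
    obtain ⟨f, hf, x, hx, hfx, hxc⟩ := hcon cc
    obtain ⟨g, hg, hjg⟩ := hA.near
    rw [← hD] at hjg
    rw [← hM] at hg
    refine ⟨f, x, hjg.trans ((hMc g hg f hf).mono ?_), hx, hfx, hxc⟩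
    intro a ha
    refine ⟨hMD a ha, fun h => ?_⟩
    have h1 := hMX a ha
    rw [C.mem_Bx] at h
    have h2 := h.1
    have h3 := hEX _ hphE
    rw [abs_le] at h2
    omega

end Pool.Agent.H74.F5
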