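import Pool.Agent.H53.Per.Tmp

set_option autoImplicit false

/-! MP_2e6055, module F5 (helper74): VISD, condition (b') of admissibility from VIS4. -/

namespace Pool.Agent.H74.F5

open Pool.Agent.H7.UC Pool.Agent.H74.Tri Pool.Agent.H75.Perc Pool.Agent.H75.Lv Pool.Agent.H53.Per

/-- VISD: from a state with a fresh box `Bx z0 e`, the face ahead on its boundary layer, both colours
visible from `z0` off the ball of radius `e / 4` around the face ahead: every box `Bx v (e / 100)`,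
`v ∈ Bx z0 (e / 8)`, is visited with probability bounded below. -/
def VISD : Prop := ∃ s3 : ℝ, 0 < s3 ∧ ∃ e0 : ℤ, ∀ (D : Finset Fc) (Ω : Fc → Bool) (q : Pos) (z0 : Fc)
  (e : ℤ), e0 ≤ e → St D Ω → IsTip D Ω q → Bx z0 e ⊆ D → ph q ∈ Bx z0 e →
  (|(ph q).1 - z0.1| = e ∨ |(ph q).2 - z0.2| = e) → TB D Ω z0 (Bx (ph q) (e / 4)) →
  ∀ v ∈ Bx z0 (e / 8), s3 ≤ vis D Ω (Bx v (e / 100))

theorem TB.anti {U : Finset Fc} {ω : Fc → Bool} {v : Fc} {B B' : Finset Fc} (h : TB U ω v B)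
    (hB : B' ⊆ B) : TB U ω v B' := by
  intro c
  obtain ⟨f, g, h1, h2⟩ := h c
  refine ⟨f, g, h1.mono ?_, h2⟩
  rintro a ⟨ha1, ha2⟩
  exact ⟨ha1, fun h => ha2 (hB h)⟩

theorem Bx_sub' {v : Fc} {s t : ℤ} (h : s ≤ t) : Bx v s ⊆ Bx v t := by
  intro f hf
  rw [Pool.Agent.H75.Lv.mem_Bx] at hf ⊢
  exact ⟨hf.1.trans h, hf.2.trans h⟩

theorem visd (h4 : VIS4) : VISD := by
  obtain ⟨s3, hs3, t0, h⟩ := h4 2000
  refine ⟨s3, hs3, 1000 * max t0 2 + 1000, ?_⟩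
  intro D Ω q z0 e he hSt hT hbox hph hbd hTB v hv
  obtain ⟨C, hc, hX, hY⟩ := Ch.exists_chart z0 z0 (ph q) e hbd
  have hX0 : C.X z0 = 0 := by rw [← hc]; exact C.X_c
  have hY0 : C.Y z0 = 0 := by rw [← hc]; exact C.Y_c
  have hph' := (C.mem_Bx (ph q) z0 e).1 hph
  have hv' := (C.mem_Bx v z0 (e / 8)).1 hv
  rw [hX0, hY0, sub_zero, sub_zero] at hph' hv'
  have ht0 : t0 ≤ max t0 2 := le_max_left _ _
  have ht2 : 2 ≤ max t0 2 := le_max_right _ _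
  obtain ⟨T, hT'⟩ : ∃ T, T = max t0 2 := ⟨_, rfl⟩
  rw [← hT'] at he ht0 ht2
  have hYe : C.Y (ph q) ≤ e := (le_abs_self _).trans hph'.2
  refine h C D Ω q z0 v e (e / 1000) (e / 2) (e / 100) (min (C.Y (ph q)) (e - e / 1000 - 1))
    ⟨⟨hSt, hT, hbox, by omega, by omega, hX, by rw [hY0, sub_zero]; exact hph'.2, ?_, ?_, ?_⟩,
      hc, by omega, by omega, by omega, by omega, rfl, hv'.1, hv'.2, hY, ?_⟩ (by omega)
    (by push_cast; omega)
  · rw [abs_le]; omega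
  · rw [hY0, sub_zero, abs_of_nonneg (by omega)]; omega
  · exact TB.anti hTB (Bx_sub' (by omega))
  · omega

end Pool.Agent.H74.F5
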